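import Pool.Agent.Helper73.FX.Neigh
import Pool.Agent.Helper28.TT.Leaf

/-!
# MP_be0fb5, full answer: uniform ellipticity of the fixed point form (lemma ELL of helper1)
-/

set_option autoImplicit false

namespace Pool.Agent.Helper73.FX

open Matrix Pool.Agent.Helper12.LW
open Pool.Agent.Helper84.FL (Superbase)

/-! ## forms of symmetric matrices -/

section forms

variable {D Q : Matrix (Fin 3) (Fin 3) ℝ}

theorem bf_comm (hD : D.IsSymm) (x y : Fin 3 → ℝ) : x ⬝ᵥ D *ᵥ y = y ⬝ᵥ D *ᵥ x := by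
  rw [dotProduct_mulVec, ← mulVec_transpose, hD.eq, dotProduct_comm]

theorem psd_symm (hD : D.PosSemidef) : D.IsSymm := by
  have h := hD.isHermitian
  rwa [IsHermitian, conjTranspose_eq_transpose_of_trivial] at h

theorem qf_nonneg (hD : D.PosSemidef) (x : Fin 3 → ℝ) : 0 ≤ qf D x := by
  have h := hD.dotProduct_mulVec_nonneg x
  simpa [qf] using h

theorem qf_add (hD : D.IsSymm) (x y : Fin 3 → ℝ) :
    qf D (x + y) = qf D x + 2 * (x ⬝ᵥ D *ᵥ y) + qf D y := by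
  simp only [qf, mulVec_add, dotProduct_add, add_dotProduct]
  rw [bf_comm hD y x]
  ring

theorem qf_smul (x : Fin 3 → ℝ) (t : ℝ) : qf D (t • x) = t ^ 2 * qf D x := by
  simp only [qf, mulVec_smul, dotProduct_smul, smul_dotProduct, smul_eq_mul]
  ring

/-- Cauchy-Schwarz -/
theorem bf_sq_le (hD : D.PosSemidef) (x y : Fin 3 → ℝ) : (x ⬝ᵥ D *ᵥ y) ^ 2 ≤ qf D x * qf D y := by
  have h : ∀ t : ℝ, 0 ≤ qf D y * (t * t) + 2 * (x ⬝ᵥ D *ᵥ y) * t + qf D x := by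
    intro t
    have h1 := qf_nonneg hD (x + t • y)
    rw [qf_add (psd_symm hD), qf_smul, mulVec_smul, dotProduct_smul, smul_eq_mul] at h1
    nlinarith
  have h2 := discrim_le_zero h
  rw [discrim] at h2
  nlinarith

theorem psd_of (hD : D.IsSymm) (h : ∀ x, 0 ≤ qf D x) : D.PosSemidef := by
  refine PosSemidef.of_dotProduct_mulVec_nonneg ?_ fun x => ?_
  · rw [IsHermitian, conjTranspose_eq_transpose_of_trivial]
    exact hD
  · have := h x
    simpa [qf] using this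

theorem qf_sub (A B : Matrix (Fin 3) (Fin 3) ℝ) (x : Fin 3 → ℝ) : qf (A - B) x = qf A x - qf B x := by
  simp only [qf, sub_mulVec, dotProduct_sub]

theorem qf_vec (g x : Fin 3 → ℝ) (c : ℝ) : qf (c • vecMulVec g g) x = c * (g ⬝ᵥ x) ^ 2 := by
  simp only [qf, smul_mulVec, dotProduct_smul, smul_eq_mul, vecMulVec_mulVec]
  rw [dotProduct_comm x]
  simp only [op_smul_eq_smul, smul_dotProduct, smul_eq_mul]
  ring

theorem vec_symm (g : Fin 3 → ℝ) (c : ℝ) : (c • vecMulVec g g).IsSymm := by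
  rw [IsSymm, transpose_smul, transpose_vecMulVec]

theorem qf_pos (hQ : Q.PosDef) {x : Fin 3 → ℝ} (hx : x ≠ 0) : 0 < qf Q x := by
  have h := hQ.dotProduct_mulVec_pos hx
  simpa [qf] using h

theorem inv_symm (hQ : Q.PosDef) : Q⁻¹.IsSymm := psd_symm hQ.inv.posSemidef

theorem mul_inv_vec (hQ : Q.PosDef) (u : Fin 3 → ℝ) : Q *ᵥ (Q⁻¹ *ᵥ u) = u := by
  rw [mulVec_mulVec, mul_nonsing_inv _ ((isUnit_iff_isUnit_det _).1 hQ.isUnit), one_mulVec]

theorem bf_inv (hQ : Q.PosDef) (u x : Fin 3 → ℝ) : (Q⁻¹ *ᵥ u) ⬝ᵥ Q *ᵥ x = u ⬝ᵥ x := by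
  rw [bf_comm (psd_symm hQ.posSemidef), mul_inv_vec hQ, dotProduct_comm]

theorem qf_inv (hQ : Q.PosDef) (u : Fin 3 → ℝ) : qf Q (Q⁻¹ *ᵥ u) = qf Q⁻¹ u := by
  rw [qf, bf_inv hQ, qf]

theorem sq_le_inv (hQ : Q.PosDef) (u x : Fin 3 → ℝ) : (u ⬝ᵥ x) ^ 2 ≤ qf Q⁻¹ u * qf Q x := by
  have h := bf_sq_le hQ.posSemidef (Q⁻¹ *ᵥ u) x
  rwa [bf_inv hQ, qf_inv hQ] at h

end forms

/-! ## the form split along `g` -/

section split

variable {Q : Matrix (Fin 3) (Fin 3) ℝ}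

/-- the part of the form along `g` -/
noncomputable def Gp (Q : Matrix (Fin 3) (Fin 3) ℝ) (g : Fin 3 → ℝ) : Matrix (Fin 3) (Fin 3) ℝ :=
  (qf Q g)⁻¹ • vecMulVec (Q *ᵥ g) (Q *ᵥ g)

/-- the part of the form on the complement of `g` -/
noncomputable def Qp (Q : Matrix (Fin 3) (Fin 3) ℝ) (g : Fin 3 → ℝ) : Matrix (Fin 3) (Fin 3) ℝ :=
  Q - Gp Q g

theorem qf_Gp (g x : Fin 3 → ℝ) : qf (Gp Q g) x = (qf Q g)⁻¹ * ((Q *ᵥ g) ⬝ᵥ x) ^ 2 := qf_vec _ _ _

theorem qf_Qp (g x : Fin 3 → ℝ) : qf (Qp Q g) x = qf Q x - qf (Gp Q g) x := qf_sub _ _ _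

theorem Gp_psd (hQ : Q.PosDef) {g : Fin 3 → ℝ} (hg : g ≠ 0) : (Gp Q g).PosSemidef :=
  psd_of (vec_symm _ _) fun x => by
    have := qf_pos hQ hg
    rw [qf_Gp]
    positivity

theorem Qp_psd (hQ : Q.PosDef) {g : Fin 3 → ℝ} (hg : g ≠ 0) : (Qp Q g).PosSemidef := by
  refine psd_of ?_ fun x => ?_
  · rw [IsSymm, Qp, transpose_sub, Gp, (vec_symm _ _).eq, (psd_symm hQ.posSemidef).eq]
  · have h0 := qf_pos hQ hg
    have h1 := bf_sq_le hQ.posSemidef g x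
    rw [qf_Qp, qf_Gp]
    have h2 : (Q *ᵥ g) ⬝ᵥ x = g ⬝ᵥ Q *ᵥ x := by
      rw [dotProduct_comm, bf_comm (psd_symm hQ.posSemidef)]
    rw [h2, sub_nonneg, inv_mul_le_iff₀ h0]
    linarith

theorem bf_Qp (hQ : Q.PosDef) (g u x : Fin 3 → ℝ) :
    (Q⁻¹ *ᵥ u) ⬝ᵥ Qp Q g *ᵥ x = u ⬝ᵥ x - (qf Q g)⁻¹ * ((u ⬝ᵥ g) * ((Q *ᵥ g) ⬝ᵥ x)) := by
  have h1 : (Q⁻¹ *ᵥ u) ⬝ᵥ (Q *ᵥ g) = u ⬝ᵥ g := bf_inv hQ u g
  rw [Qp, sub_mulVec, dotProduct_sub, bf_inv hQ, Gp, smul_mulVec, dotProduct_smul, smul_eq_mul,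
    vecMulVec_mulVec]
  simp only [op_smul_eq_smul, dotProduct_smul, smul_eq_mul, h1]
  ring

theorem qf_Qp_inv (hQ : Q.PosDef) (g u : Fin 3 → ℝ) :
    qf (Qp Q g) (Q⁻¹ *ᵥ u) = qf Q⁻¹ u - (qf Q g)⁻¹ * (g ⬝ᵥ u) ^ 2 := by
  rw [qf, bf_Qp hQ]
  have h1 : (Q *ᵥ g) ⬝ᵥ (Q⁻¹ *ᵥ u) = g ⬝ᵥ u := by
    rw [dotProduct_comm, bf_inv hQ, dotProduct_comm]
  have h2 : u ⬝ᵥ Q⁻¹ *ᵥ u = qf Q⁻¹ u := rfl
  rw [h1, h2, dotProduct_comm u g]
  ring

/-- trace inequality: total of the complement part of a family dominated by `Q` is at most two -/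
theorem trace_two (hQ : Q.PosDef) {g : Fin 3 → ℝ} (hg : g ≠ 0) {ι : Type*} [Fintype ι]
    (y : ι → ℝ) (v : ι → Fin 4 → Fin 3 → ℝ)
    (hT : ∀ x : Fin 3 → ℝ, ∑ a, y a * ∑ k, (v a k ⬝ᵥ x) ^ 2 ≤ qf Q x) :
    ∑ a, y a * ∑ k, qf (Qp Q g) (Q⁻¹ *ᵥ v a k) ≤ 2 := by
  set N : Matrix (Fin 3) (Fin 3) ℝ := Q⁻¹ - (qf Q g)⁻¹ • vecMulVec g g with hN
  set T : Matrix (Fin 3) (Fin 3) ℝ := ∑ a, y a • ∑ k, vecMulVec (v a k) (v a k) with hTdef
  have hg0 := qf_pos hQ hg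
  have hNq : ∀ u, qf N u = qf (Qp Q g) (Q⁻¹ *ᵥ u) := by
    intro u
    rw [hN, qf_sub, qf_vec, qf_Qp_inv hQ]
  have hNs : N.IsSymm := by
    rw [IsSymm, hN, transpose_sub, (vec_symm _ _).eq, (inv_symm hQ).eq]
  have hNp : N.PosSemidef := psd_of hNs fun u => by
    rw [hNq]
    exact qf_nonneg (Qp_psd hQ hg) _
  have hqT : ∀ x, qf T x = ∑ a, y a * ∑ k, (v a k ⬝ᵥ x) ^ 2 := by
    intro x
    rw [qf, hTdef, sum_mulVec, dotProduct_sum]
    refine Finset.sum_congr rfl fun a _ => ?_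
    rw [smul_mulVec, dotProduct_smul, smul_eq_mul, sum_mulVec, dotProduct_sum]
    congr 1
    refine Finset.sum_congr rfl fun k _ => ?_
    have := qf_vec (v a k) x 1
    rw [one_smul, one_mul, qf] at this
    exact this
  have hTs : T.IsSymm := by
    rw [IsSymm, hTdef, transpose_sum]
    refine Finset.sum_congr rfl fun a _ => ?_
    rw [transpose_smul, transpose_sum]
    congr 1
    exact Finset.sum_congr rfl fun k _ => transpose_vecMulVec _ _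
  have hDp : (Q - T).PosSemidef := by
    refine psd_of ?_ fun x => ?_
    · rw [IsSymm, transpose_sub, hTs.eq, (psd_symm hQ.posSemidef).eq]
    · rw [qf_sub, hqT, sub_nonneg]
      exact hT x
  have h1 := Pool.Agent.Helper28.TT.trace_conj_nonneg N (Q - T) 1 hNp hDp
  rw [transpose_one, Matrix.one_mul, Matrix.mul_one, Matrix.mul_sub, trace_sub] at h1
  have hvec : ∀ u : Fin 3 → ℝ, trace (N * vecMulVec u u) = qf N u := by
    intro u
    rw [mul_vecMulVec, trace_vecMulVec, dotProduct_comm, qf]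
  have h2 : trace (N * T) = ∑ a, y a * ∑ k, qf (Qp Q g) (Q⁻¹ *ᵥ v a k) := by
    rw [hTdef, Matrix.mul_sum, trace_sum]
    refine Finset.sum_congr rfl fun a _ => ?_
    rw [Matrix.mul_smul, trace_smul, smul_eq_mul, Matrix.mul_sum, trace_sum]
    congr 1
    refine Finset.sum_congr rfl fun k _ => ?_
    rw [hvec, hNq]
  have h3 : trace (N * Q) = 2 := by
    rw [hN, Matrix.sub_mul, trace_sub, nonsing_inv_mul _ ((isUnit_iff_isUnit_det _).1 hQ.isUnit),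
      trace_one, Matrix.smul_mul, trace_smul, trace_mul_comm, mul_vecMulVec, trace_vecMulVec,
      dotProduct_comm]
    have h4 : g ⬝ᵥ Q *ᵥ g = qf Q g := rfl
    rw [h4, smul_eq_mul, inv_mul_cancel₀ hg0.ne']
    norm_num
  rw [h2, h3] at h1
  linarith

/-- the part along `g` -/
theorem trace_one_le (hQ : Q.PosDef) {g : Fin 3 → ℝ} (hg : g ≠ 0) {ι : Type*} [Fintype ι]
    (y : ι → ℝ) (v : ι → Fin 4 → Fin 3 → ℝ)
    (hT : ∀ x : Fin 3 → ℝ, ∑ a, y a * ∑ k, (v a k ⬝ᵥ x) ^ 2 ≤ qf Q x) :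
    ∑ a, y a * ∑ k, (qf Q g)⁻¹ * (v a k ⬝ᵥ g) ^ 2 ≤ 1 := by
  have hg0 := qf_pos hQ hg
  have h1 : ∑ a, y a * ∑ k, (qf Q g)⁻¹ * (v a k ⬝ᵥ g) ^ 2 =
      (qf Q g)⁻¹ * ∑ a, y a * ∑ k, (v a k ⬝ᵥ g) ^ 2 := by
    rw [Finset.mul_sum]
    refine Finset.sum_congr rfl fun a _ => ?_
    rw [← Finset.mul_sum]
    ring
  rw [h1, inv_mul_le_iff₀ hg0, mul_one]
  exact hT g

end split

/-! ## the chain inequality -/

theorem PP_sub_mat (A B : Matrix (Fin 3) (Fin 3) ℝ) (φ : Fin 4 → Fin 3 → ℤ) :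
    PP (A - B) φ = PP A φ - PP B φ := by
  simp only [PP, qf_sub, Finset.sum_sub_distrib]
  ring

/-- deviation of the chain points from the centroid -/
noncomputable def dev (φ : Fin 4 → Fin 3 → ℤ) (z : Fin 3 → ℤ) (σ : Equiv.Perm (Fin 3)) (k : Fin 4) :
    Fin 3 → ℝ :=
  toR (chainP φ z σ k) - (1 / 4 : ℝ) • ∑ l, toR (chainP φ z σ l)

theorem chain_dev {D : Matrix (Fin 3) (Fin 3) ℝ} (hD : D.PosSemidef) {φ : Fin 4 → Fin 3 → ℤ}
    (hφ : ∑ l, φ l = 0) (z : Fin 3 → ℤ) (σ : Equiv.Perm (Fin 3)) :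
    ∑ k, qf D (dev φ z σ k) ≤ PP D φ := by
  set a := toR (φ (σ 0).castSucc) with ha
  set b := toR (φ (σ 1).castSucc) with hb
  set c := toR (φ (σ 2).castSucc) with hc
  have h0 : toR (chainP φ z σ 0) = toR z := by
    congr 1
    simp [chainP]
  have h1 : toR (chainP φ z σ 1) = toR z + a := by
    funext i
    simp [chainP, toR, ha, Fin.sum_univ_three]
  have h2 : toR (chainP φ z σ 2) = toR z + a + b := by
    funext i
    simp [chainP, toR, ha, hb, Fin.sum_univ_three]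
    ring
  have h3 : toR (chainP φ z σ 3) = toR z + a + b + c := by
    funext i
    simp [chainP, toR, ha, hb, hc, Fin.sum_univ_three]
    ring
  have hd : toR (φ 3) = -(a + b + c) := by
    have h4 := toR_sum_zero hφ
    rw [Fin.sum_univ_castSucc] at h4
    have h5 : ∑ i : Fin 3, toR (φ i.castSucc) = a + b + c := by
      rw [← Equiv.sum_comp σ, Fin.sum_univ_three]
    rw [h5] at h4
    have h6 : (Fin.last 3 : Fin 4) = 3 := rfl
    rw [h6] at h4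
    exact eq_neg_of_add_eq_zero_right h4
  have hPP : PP D φ = (qf D a + qf D b + qf D c + qf D (a + b + c)) / 2 := by
    rw [PP, Fin.sum_univ_castSucc]
    have h5 : ∑ i : Fin 3, qf D (toR (φ i.castSucc)) = qf D a + qf D b + qf D c := by
      rw [← Equiv.sum_comp σ, Fin.sum_univ_three]
    have h6 : (Fin.last 3 : Fin 4) = 3 := rfl
    rw [h5, h6, hd]
    have h7 : qf D (-(a + b + c)) = qf D (a + b + c) := by
      have := qf_smul (D := D) (a + b + c) (-1)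
      rw [neg_one_smul] at this
      rw [this]
      ring
    rw [h7]
  have e0 : dev φ z σ 0 = (-3 / 4 : ℝ) • a + (-1 / 2 : ℝ) • b + (-1 / 4 : ℝ) • c := by
    rw [dev, Fin.sum_univ_four, h0, h1, h2, h3]
    funext i
    simp only [Pi.add_apply, Pi.sub_apply, Pi.smul_apply, smul_eq_mul]
    ring
  have e1 : dev φ z σ 1 = (1 / 4 : ℝ) • a + (-1 / 2 : ℝ) • b + (-1 / 4 : ℝ) • c := by
    rw [dev, Fin.sum_univ_four, h0, h1, h2, h3]
    funext i
    simp only [Pi.add_apply, Pi.sub_apply, Pi.smul_apply, smul_eq_mul]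
    ring
  have e2 : dev φ z σ 2 = (1 / 4 : ℝ) • a + (1 / 2 : ℝ) • b + (-1 / 4 : ℝ) • c := by
    rw [dev, Fin.sum_univ_four, h0, h1, h2, h3]
    funext i
    simp only [Pi.add_apply, Pi.sub_apply, Pi.smul_apply, smul_eq_mul]
    ring
  have e3 : dev φ z σ 3 = (1 / 4 : ℝ) • a + (1 / 2 : ℝ) • b + (3 / 4 : ℝ) • c := by
    rw [dev, Fin.sum_univ_four, h0, h1, h2, h3]
    funext i
    simp only [Pi.add_apply, Pi.sub_apply, Pi.smul_apply, smul_eq_mul]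
    ring
  have hs := psd_symm hD
  have hac := qf_nonneg hD (a + c)
  rw [hPP, Fin.sum_univ_four, e0, e1, e2, e3]
  simp only [qf_add hs, qf_smul, mulVec_add, mulVec_smul, dotProduct_add, add_dotProduct, dotProduct_smul,
    smul_dotProduct, smul_eq_mul] at hac ⊢
  nlinarith [hac, bf_comm hs a b, bf_comm hs b c, bf_comm hs a c]

/-- the pairing of a balanced chain with the deviations -/
theorem pair_dev {φ : Fin 4 → Fin 3 → ℤ} {z : Fin 3 → ℤ} {σ : Equiv.Perm (Fin 3)}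
    {v : Fin 4 → Fin 3 → ℝ} (hv0 : ∑ k, v k = 0) (hv1 : ∑ k, v k ⬝ᵥ toR (chainP φ z σ k) = 1) :
    ∑ k, v k ⬝ᵥ dev φ z σ k = 1 := by
  simp only [dev, dotProduct_sub, Finset.sum_sub_distrib]
  rw [hv1, ← sum_dotProduct, hv0]
  simp

/-! ## resistances -/

/-- weights of pairs, zero on the diagonal -/
noncomputable def pw (Q : Matrix (Fin 3) (Fin 3) ℝ) (f : Fin 4 → Fin 3 → ℤ) (l m : Fin 4) : ℝ :=
  if l = m then 0 else sp Q f l m

theorem pw_nonneg {Q : Matrix (Fin 3) (Fin 3) ℝ} {f : Fin 4 → Fin 3 → ℤ}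
    (hp : ∀ l m, l ≠ m → 0 ≤ sp Q f l m) (l m : Fin 4) : 0 ≤ pw Q f l m := by
  unfold pw
  split_ifs with h
  · exact le_refl _
  · exact hp l m h

theorem dual_exists {f : Fin 4 → Fin 3 → ℤ} (hf : Superbase f) :
    ∃ w : Fin 4 → Fin 3 → ℤ, (∀ i l, ∑ k, w i k * f l k =
      (if l = i then 1 else 0) - (if l = 3 then 1 else 0)) ∧
      (∀ x : Fin 3 → ℝ, x = ∑ l, (toR (w l) ⬝ᵥ x) • toR (f l)) := by
  obtain ⟨w, hw⟩ := Pool.Agent.Helper84.FL.dual_basis f hf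
  refine ⟨w, hw, fun x => ?_⟩
  have key : ∀ k0 : Fin 3, (Pi.single k0 1 : Fin 3 → ℝ) = ∑ l, (f l k0 : ℝ) • toR (w l) := by
    intro k0
    refine Pool.Agent.Helper84.FL.eq_of_pz f hf _ _ fun j => ?_
    have hwR : ∀ i l, ∑ k, (w i k : ℝ) * (f l k : ℝ)
        = (if l = i then 1 else 0) - (if l = 3 then 1 else 0) := by
      intro i l
      have := congrArg (Int.cast : ℤ → ℝ) (hw i l)
      push_cast at this
      exact this
    have h1 : Pool.Agent.Helper84.FL.pz (Pi.single k0 1) (f j) = (f j k0 : ℝ) := by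
      unfold Pool.Agent.Helper84.FL.pz
      simp [Pi.single_apply]
    have h2 : Pool.Agent.Helper84.FL.pz (∑ l, (f l k0 : ℝ) • toR (w l)) (f j) =
        ∑ l, (f l k0 : ℝ) * ∑ k, (w l k : ℝ) * (f j k : ℝ) := by
      unfold Pool.Agent.Helper84.FL.pz
      simp only [Finset.sum_apply, Pi.smul_apply, smul_eq_mul, toR, Finset.sum_mul, Finset.mul_sum]
      rw [Finset.sum_comm]
      exact Finset.sum_congr rfl fun i _ => Finset.sum_congr rfl fun k _ => by ring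
    rw [h1, h2]
    simp only [hwR, mul_sub, Finset.sum_sub_distrib, mul_ite, mul_one, mul_zero, Finset.sum_ite_eq,
      Finset.mem_univ, if_true]
    have h3 : (if j = 3 then ∑ l, (f l k0 : ℝ) else 0) = 0 := by
      have h4 := congrFun hf.sum k0
      rw [Finset.sum_apply] at h4
      have h5 : ∑ l, (f l k0 : ℝ) = 0 := by exact_mod_cast h4
      rw [h5]
      simp
    have h6 : ∑ l, (if j = 3 then (f l k0 : ℝ) else 0) = 0 := by
      rw [← h3]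
      split_ifs <;> simp
    rw [h6, sub_zero]
  funext k0
  have h7 : x k0 = (Pi.single k0 1 : Fin 3 → ℝ) ⬝ᵥ x := by simp
  rw [h7, key k0, sum_dotProduct, Finset.sum_apply]
  refine Finset.sum_congr rfl fun l _ => ?_
  rw [smul_dotProduct]
  simp only [Pi.smul_apply, smul_eq_mul, toR]
  ring

/-- the dual data of a superbase, in real form -/
structure Dual (f : Fin 4 → Fin 3 → ℤ) (w : Fin 4 → Fin 3 → ℤ) : Prop where
  pair : ∀ i l, toR (w i) ⬝ᵥ toR (f l) = (if l = i then 1 else 0) - (if l = 3 then 1 else 0)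
  coord : ∀ x : Fin 3 → ℝ, x = ∑ l, (toR (w l) ⬝ᵥ x) • toR (f l)

theorem exists_dual {f : Fin 4 → Fin 3 → ℤ} (hf : Superbase f) : ∃ w, Dual f w := by
  obtain ⟨w, hw, hx⟩ := dual_exists hf
  refine ⟨w, ⟨fun i l => ?_, hx⟩⟩
  have := congrArg (Int.cast : ℤ → ℝ) (hw i l)
  push_cast at this
  exact this

/-- resistance functional of the pair `l, m` -/
noncomputable def U (w : Fin 4 → Fin 3 → ℤ) (l m : Fin 4) : Fin 3 → ℝ := toR (w l - w m)

theorem U_dot (w : Fin 4 → Fin 3 → ℤ) (l m : Fin 4) (x : Fin 3 → ℝ) :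
    U w l m ⬝ᵥ x = toR (w l) ⬝ᵥ x - toR (w m) ⬝ᵥ x := by
  rw [← sub_dotProduct]
  congr 1
  funext i
  simp [U, toR]

theorem U_pair {f w : Fin 4 → Fin 3 → ℤ} (hw : Dual f w) (l m k : Fin 4) :
    U w l m ⬝ᵥ toR (f k) = (if k = l then 1 else 0) - (if k = m then 1 else 0) := by
  rw [U_dot, hw.pair, hw.pair]
  ring

theorem U_coord {f w : Fin 4 → Fin 3 → ℤ} (hw : Dual f w) (l m : Fin 4) (X : Fin 4 → ℤ) :
    U w l m ⬝ᵥ toR (∑ k, X k • f k) = X l - X m := by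
  rw [toR_sum, dotProduct_sum]
  simp only [dotProduct_smul, U_pair hw, smul_eq_mul, mul_sub, Finset.sum_sub_distrib, mul_ite,
    mul_one, mul_zero, Finset.sum_ite_eq', Finset.mem_univ, if_true]

theorem U_ne {f w : Fin 4 → Fin 3 → ℤ} (hw : Dual f w) {l m : Fin 4} (hlm : l ≠ m) : w l - w m ≠ 0 := by
  intro h0
  have h1 := U_pair hw l m l
  rw [if_pos rfl, if_neg hlm, U, h0] at h1
  simp [toR, dotProduct] at h1

theorem form_eq {Q : Matrix (Fin 3) (Fin 3) ℝ} (hQ : Q.IsSymm) {f w : Fin 4 → Fin 3 → ℤ}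
    (hf : ∑ l, f l = 0) (hw : Dual f w) (x y : Fin 3 → ℝ) :
    x ⬝ᵥ Q *ᵥ y = (∑ l, ∑ m, pw Q f l m * ((U w l m ⬝ᵥ x) * (U w l m ⬝ᵥ y))) / 2 := by
  conv_lhs => rw [hw.coord x, hw.coord y]
  rw [selling hQ hf]
  congr 1
  refine Finset.sum_congr rfl fun l _ => Finset.sum_congr rfl fun m _ => ?_
  rw [U_dot, U_dot, pw]
  split_ifs with h
  · subst h
    simp
  · rfl

theorem sum_pw {Q : Matrix (Fin 3) (Fin 3) ℝ} (hQ : Q.IsSymm) {f : Fin 4 → Fin 3 → ℤ}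
    (hf : ∑ l, f l = 0) : ∑ l, ∑ m, pw Q f l m = 2 * PP Q f := by
  rw [PP_self hQ hf]
  have h := fun l m => sp_comm hQ f l m
  have h10 := h 1 0
  have h20 := h 2 0
  have h30 := h 3 0
  have h21 := h 2 1
  have h31 := h 3 1
  have h32 := h 3 2
  simp only [pw, Fin.sum_univ_four]
  simp only [Fin.isValue, ↓reduceIte, zero_ne_one, one_ne_zero, Fin.reduceEq, zero_add, add_zero, h10,
    h20, h30, h21, h31, h32]
  ring

theorem foster {Q : Matrix (Fin 3) (Fin 3) ℝ} (hQ : Q.PosDef) {f w : Fin 4 → Fin 3 → ℤ}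
    (hf : ∑ l, f l = 0) (hw : Dual f w) :
    ∑ l, ∑ m, pw Q f l m * qf Q⁻¹ (U w l m) = 6 := by
  have hs := psd_symm hQ.posSemidef
  have hmat : Q = (1 / 2 : ℝ) • ∑ l, ∑ m, pw Q f l m • vecMulVec (U w l m) (U w l m) := by
    ext i j
    have h1 := form_eq hs hf hw (Pi.single i 1) (Pi.single j 1)
    have h2 : (Pi.single i 1 : Fin 3 → ℝ) ⬝ᵥ Q *ᵥ (Pi.single j 1) = Q i j := by simp
    rw [← h2, h1]
    simp only [Matrix.smul_apply, Matrix.sum_apply, smul_eq_mul, vecMulVec_apply]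
    simp only [dotProduct_single, mul_one]
    ring
  have h := congrArg (fun M => trace (Q⁻¹ * M)) hmat
  rw [nonsing_inv_mul _ ((isUnit_iff_isUnit_det _).1 hQ.isUnit), trace_one, Matrix.mul_smul,
    trace_smul, Matrix.mul_sum, trace_sum] at h
  have h2 : ∑ l, trace (Q⁻¹ * ∑ m, pw Q f l m • vecMulVec (U w l m) (U w l m)) =
      ∑ l, ∑ m, pw Q f l m * qf Q⁻¹ (U w l m) := by
    refine Finset.sum_congr rfl fun l _ => ?_
    rw [Matrix.mul_sum, trace_sum]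
    refine Finset.sum_congr rfl fun m _ => ?_
    rw [Matrix.mul_smul, trace_smul, smul_eq_mul, mul_vecMulVec, trace_vecMulVec, dotProduct_comm, qf]
  rw [h2, smul_eq_mul] at h
  simp only [Fintype.card_fin, Nat.cast_ofNat] at h
  linarith

/-! ## cuts -/

section cut

variable {Q : Matrix (Fin 3) (Fin 3) ℝ} {f w : Fin 4 → Fin 3 → ℤ} {A : Finset (Fin 4)}

/-- the sign of a pair with respect to a cut -/
noncomputable def ee (A : Finset (Fin 4)) (l m : Fin 4) : ℝ :=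
  (if l ∈ A then 1 else 0) - (if m ∈ A then 1 else 0)

theorem ee_sq (A : Finset (Fin 4)) (l m : Fin 4) : ee A l m ^ 2 = 0 ∨ ee A l m ^ 2 = 1 := by
  unfold ee
  split_ifs <;> norm_num

theorem U_cut (hw : Dual f w) (l m : Fin 4) : U w l m ⬝ᵥ toR (∑ k ∈ A, f k) = ee A l m := by
  have h1 : ∑ k ∈ A, f k = ∑ k, (if k ∈ A then (1 : ℤ) else 0) • f k := by
    simp [Finset.sum_ite_mem, ite_smul]
  rw [h1, U_coord hw, ee]
  push_cast
  rfl

theorem cut_ne (hw : Dual f w) (hA : A.Nonempty) (hA' : A ≠ Finset.univ) :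
    toR (∑ k ∈ A, f k) ≠ 0 := by
  obtain ⟨l, hl⟩ := hA
  obtain ⟨m, hm⟩ : ∃ m, m ∉ A := by
    by_contra hcon
    push Not at hcon
    exact hA' (Finset.eq_univ_iff_forall.2 hcon)
  intro h0
  have h1 := U_cut (A := A) hw l m
  rw [h0, ee, if_pos hl, if_neg hm] at h1
  simp at h1

theorem cut_eq (hQ : Q.IsSymm) (hf : ∑ l, f l = 0) (hw : Dual f w) :
    qf Q (toR (∑ k ∈ A, f k)) = (∑ l, ∑ m, pw Q f l m * ee A l m ^ 2) / 2 := by
  rw [qf, form_eq hQ hf hw]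
  simp only [U_cut hw, sq]

/-- the total length is bounded by the cut -/
theorem PP_le_cut (hQ : Q.PosDef) (hf : ∑ l, f l = 0) (hw : Dual f w)
    (hp : ∀ l m, l ≠ m → 0 ≤ sp Q f l m) {μ : ℝ} (hμ : 0 < μ)
    (hinv : ∀ u : Fin 3 → ℤ, u ≠ 0 → μ ≤ qf Q⁻¹ (toR u)) (hA : A.Nonempty) (hA' : A ≠ Finset.univ) :
    PP Q f ≤ qf Q (toR (∑ k ∈ A, f k)) + 2 / μ := by
  have hs := psd_symm hQ.posSemidef
  set S := qf Q (toR (∑ k ∈ A, f k)) with hS
  have hS0 : 0 < S := qf_pos hQ (cut_ne hw hA hA')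
  have h1 := foster hQ hf hw
  have h2 : ∑ l, ∑ m, pw Q f l m * (ee A l m ^ 2 / S + (1 - ee A l m ^ 2) * μ) ≤ 6 := by
    rw [← h1]
    refine Finset.sum_le_sum fun l _ => Finset.sum_le_sum fun m _ => ?_
    by_cases hlm : l = m
    · rw [pw, if_pos hlm]
      simp
    · refine mul_le_mul_of_nonneg_left ?_ (pw_nonneg hp l m)
      rcases ee_sq A l m with h3 | h3
      · rw [h3, zero_div, zero_add, sub_zero, one_mul]
        exact hinv _ (U_ne hw hlm)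
      · rw [h3, sub_self, zero_mul, add_zero, div_le_iff₀ hS0]
        have h4 := sq_le_inv hQ (U w l m) (toR (∑ k ∈ A, f k))
        rw [U_cut hw, h3] at h4
        exact h4
  have h3 : ∑ l, ∑ m, pw Q f l m * (ee A l m ^ 2 / S + (1 - ee A l m ^ 2) * μ) =
      (∑ l, ∑ m, pw Q f l m * ee A l m ^ 2) * (1 / S - μ) + (∑ l, ∑ m, pw Q f l m) * μ := by
    simp only [Finset.sum_mul]
    rw [← Finset.sum_add_distrib]
    refine Finset.sum_congr rfl fun l _ => ?_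
    rw [← Finset.sum_add_distrib]
    refine Finset.sum_congr rfl fun m _ => ?_
    ring
  have h4 : ∑ l, ∑ m, pw Q f l m * ee A l m ^ 2 = 2 * S := by
    rw [hS, cut_eq hs hf hw]
    ring
  rw [h3, h4, sum_pw hs hf] at h2
  have h5 : 2 * S * (1 / S - μ) = 2 - 2 * S * μ := by
    field_simp
  rw [h5] at h2
  have h6 : (PP Q f - S) * μ ≤ 2 := by linarith
  have h7 : PP Q f - S ≤ 2 / μ := by rwa [le_div_iff₀ hμ]
  linarith

/-- lower bound of the length of any superbase for the complement part -/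
theorem PP_Qp_ge (hQ : Q.PosDef) (hf : Superbase f) (hw : Dual f w)
    (hp : ∀ l m, l ≠ m → 0 ≤ sp Q f l m) (hA : A.Nonempty) (hA' : A ≠ Finset.univ)
    {φ : Fin 4 → Fin 3 → ℤ} (hφ : Superbase φ) :
    PP Q f - qf Q (toR (∑ k ∈ A, f k)) ≤ PP (Qp Q (toR (∑ k ∈ A, f k))) φ := by
  have hs := psd_symm hQ.posSemidef
  set g := toR (∑ k ∈ A, f k) with hg
  have hS0 : 0 < qf Q g := qf_pos hQ (cut_ne hw hA hA')
  obtain ⟨X, hX⟩ := coords hf φ
  have h1 : ∀ x : Fin 3 → ℝ, (∑ l, ∑ m, pw Q f l m * ((1 - ee A l m ^ 2) * (U w l m ⬝ᵥ x) ^ 2)) / 2 ≤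
      qf (Qp Q g) x := by
    intro x
    have h2 : (Q *ᵥ g) ⬝ᵥ x = (∑ l, ∑ m, pw Q f l m * (ee A l m * (U w l m ⬝ᵥ x))) / 2 := by
      rw [dotProduct_comm, form_eq hs hf.sum hw]
      congr 1
      refine Finset.sum_congr rfl fun l _ => Finset.sum_congr rfl fun m _ => ?_
      rw [hg, U_cut hw]
      ring
    have h3 : (∑ l, ∑ m, pw Q f l m * (ee A l m * (U w l m ⬝ᵥ x))) ^ 2 ≤
        (∑ l, ∑ m, pw Q f l m * ee A l m ^ 2) *
          (∑ l, ∑ m, pw Q f l m * (ee A l m ^ 2 * (U w l m ⬝ᵥ x) ^ 2)) := by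
      simp only [← Finset.sum_product']
      refine Finset.sum_sq_le_sum_mul_sum_of_sq_le_mul _ (fun i _ => ?_) (fun i _ => ?_) (fun i _ => ?_)
      · exact mul_nonneg (pw_nonneg hp _ _) (sq_nonneg _)
      · exact mul_nonneg (pw_nonneg hp _ _) (by positivity)
      · rcases ee_sq A i.1 i.2 with h4 | h4
        · have h5 : ee A i.1 i.2 = 0 := by simpa using h4
          rw [h5]
          simp
        · rw [h4, mul_pow, mul_pow, h4]
          exact le_of_eq (by ring)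
    have h4 : qf Q x = (∑ l, ∑ m, pw Q f l m * (U w l m ⬝ᵥ x) ^ 2) / 2 := by
      rw [qf, form_eq hs hf.sum hw]
      simp only [sq]
    have h5 := cut_eq (A := A) hs hf.sum hw
    rw [← hg] at h5
    have h6 : ∑ l, ∑ m, pw Q f l m * (U w l m ⬝ᵥ x) ^ 2 =
        ∑ l, ∑ m, pw Q f l m * ((1 - ee A l m ^ 2) * (U w l m ⬝ᵥ x) ^ 2) +
          ∑ l, ∑ m, pw Q f l m * (ee A l m ^ 2 * (U w l m ⬝ᵥ x) ^ 2) := by
      rw [← Finset.sum_add_distrib]
      refine Finset.sum_congr rfl fun l _ => ?_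
      rw [← Finset.sum_add_distrib]
      refine Finset.sum_congr rfl fun m _ => ?_
      ring
    rw [qf_Qp, qf_Gp, h2, h4, h6]
    have h7 : (qf Q g)⁻¹ * ((∑ l, ∑ m, pw Q f l m * (ee A l m * (U w l m ⬝ᵥ x))) / 2) ^ 2 ≤
        (∑ l, ∑ m, pw Q f l m * (ee A l m ^ 2 * (U w l m ⬝ᵥ x) ^ 2)) / 2 := by
      rw [inv_mul_le_iff₀ hS0, div_pow]
      have h8 : ∑ l, ∑ m, pw Q f l m * ee A l m ^ 2 = 2 * qf Q g := by linarith
      rw [h8] at h3
      linarith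
    linarith
  have h2 : ∀ i l m, (U w l m ⬝ᵥ toR (φ i)) = ((X i l - X i m : ℤ) : ℝ) := by
    intro i l m
    rw [hX i, U_coord hw]
    push_cast
    rfl
  have h3 : (∑ i, (∑ l, ∑ m, pw Q f l m * ((1 - ee A l m ^ 2) * (U w l m ⬝ᵥ toR (φ i)) ^ 2)) / 2) / 2 ≤
      PP (Qp Q g) φ := by
    rw [PP]
    gcongr with i _
    exact h1 _
  refine le_trans ?_ h3
  have h4 : ∑ i, (∑ l, ∑ m, pw Q f l m * ((1 - ee A l m ^ 2) * (U w l m ⬝ᵥ toR (φ i)) ^ 2)) / 2 =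
      (∑ l, ∑ m, pw Q f l m * ((1 - ee A l m ^ 2) * (nn X l m : ℝ))) / 2 := by
    rw [← Finset.sum_div]
    congr 1
    rw [Finset.sum_comm]
    refine Finset.sum_congr rfl fun l _ => ?_
    rw [Finset.sum_comm]
    refine Finset.sum_congr rfl fun m _ => ?_
    rw [← Finset.mul_sum, ← Finset.mul_sum, nn]
    push_cast
    congr 2
    refine Finset.sum_congr rfl fun i _ => ?_
    rw [h2]
    push_cast
    rfl
  rw [h4]
  have h5 : ∑ l, ∑ m, pw Q f l m * ((1 - ee A l m ^ 2) * 2) ≤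
      ∑ l, ∑ m, pw Q f l m * ((1 - ee A l m ^ 2) * (nn X l m : ℝ)) := by
    refine Finset.sum_le_sum fun l _ => Finset.sum_le_sum fun m _ => ?_
    by_cases hlm : l = m
    · rw [pw, if_pos hlm]
      simp
    · refine mul_le_mul_of_nonneg_left ?_ (pw_nonneg hp l m)
      have h6 : (2 : ℝ) ≤ nn X l m := by exact_mod_cast two_le_nn hf hφ X hX hlm
      refine mul_le_mul_of_nonneg_left h6 ?_
      rcases ee_sq A l m with h7 | h7 <;> rw [h7] <;> norm_num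
  have h6 : ∑ l, ∑ m, pw Q f l m * ((1 - ee A l m ^ 2) * 2) =
      2 * (∑ l, ∑ m, pw Q f l m) - 2 * (∑ l, ∑ m, pw Q f l m * ee A l m ^ 2) := by
    simp only [Finset.mul_sum]
    rw [← Finset.sum_sub_distrib]
    refine Finset.sum_congr rfl fun l _ => ?_
    rw [← Finset.sum_sub_distrib]
    refine Finset.sum_congr rfl fun m _ => ?_
    ring
  have h7 := cut_eq (A := A) hs hf.sum hw
  rw [← hg] at h7
  rw [h6, sum_pw hs hf.sum] at h5
  linarith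

end cut

/-- weighted Cauchy-Schwarz over a family of chains -/
theorem cs_family {ι : Type*} [Fintype ι] (y : ι → ℝ) (hy : ∀ a, 0 ≤ y a) (b r q : ι → Fin 4 → ℝ)
    (hr : ∀ a k, 0 ≤ r a k) (hq : ∀ a k, 0 ≤ q a k) (hb : ∀ a k, b a k ^ 2 ≤ r a k * q a k) :
    (∑ a, y a * ∑ k, b a k) ^ 2 ≤ (∑ a, y a * ∑ k, r a k) * (∑ a, y a * ∑ k, q a k) := by
  have e : ∀ c : ι → Fin 4 → ℝ, ∑ a, y a * ∑ k, c a k =
      ∑ i ∈ (Finset.univ : Finset ι) ×ˢ (Finset.univ : Finset (Fin 4)), y i.1 * c i.1 i.2 := by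
    intro c
    rw [Finset.sum_product]
    exact Finset.sum_congr rfl fun a _ => Finset.mul_sum _ _ _
  rw [e b, e r, e q]
  refine Finset.sum_sq_le_sum_mul_sum_of_sq_le_mul _ (fun i _ => ?_) (fun i _ => ?_) (fun i _ => ?_)
  · exact mul_nonneg (hy _) (hr _ _)
  · exact mul_nonneg (hy _) (hq _ _)
  · have h1 := hb i.1 i.2
    have h2 := mul_le_mul_of_nonneg_left h1 (sq_nonneg (y i.1))
    calc (y i.1 * b i.1 i.2) ^ 2 = y i.1 ^ 2 * b i.1 i.2 ^ 2 := by ring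
      _ ≤ y i.1 ^ 2 * (r i.1 i.2 * q i.1 i.2) := h2
      _ = y i.1 * r i.1 i.2 * (y i.1 * q i.1 i.2) := by ring

/-- **lemma ELL**: no cut of the fixed point form is small. -/
theorem ell {ι : Type*} [Fintype ι] {Q : Matrix (Fin 3) (Fin 3) ℝ} (hQ : Q.PosDef)
    {f : Fin 4 → Fin 3 → ℤ} (hf : Superbase f) (hp : ∀ l m, l ≠ m → 0 ≤ sp Q f l m)
    {μ : ℝ} (hμ : 0 < μ) (hinv : ∀ u : Fin 3 → ℤ, u ≠ 0 → μ ≤ qf Q⁻¹ (toR u))
    {y : ι → ℝ} (hy : ∀ a, 0 ≤ y a) (hy1 : ∑ a, y a = 1)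
    {g : ι → Fin 4 → Fin 3 → ℤ} (hg : ∀ a, Superbase (g a)) {z : ι → Fin 3 → ℤ}
    {σ : ι → Equiv.Perm (Fin 3)} {v : ι → Fin 4 → Fin 3 → ℝ} (hv0 : ∀ a, ∑ k, v a k = 0)
    (hv1 : ∀ a, ∑ k, v a k ⬝ᵥ toR (chainP (g a) (z a) (σ a) k) = 1)
    (hT : ∀ x : Fin 3 → ℝ, ∑ a, y a * ∑ k, (v a k ⬝ᵥ x) ^ 2 ≤ qf Q x)
    {δ : ℝ} (hδ : 0 ≤ δ) (hPP : ∀ a, 0 < y a → PP Q (g a) ≤ (1 + δ) * PP Q f)
    {s : ℝ} (_hs : 0 < s)
    (hnum : √(2 * (1 + δ) * (s + 2 / μ)) + √(δ * (s + 2 / μ) + s) < 1)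
    {A : Finset (Fin 4)} (hA : A.Nonempty) (hA' : A ≠ Finset.univ) :
    s ≤ qf Q (toR (∑ l ∈ A, f l)) := by
  obtain ⟨w, hw⟩ := exists_dual hf
  have hsym := psd_symm hQ.posSemidef
  set G := toR (∑ l ∈ A, f l) with hG
  have hG0 : G ≠ 0 := cut_ne hw hA hA'
  set S := qf Q G with hS
  have hS0 : 0 < S := qf_pos hQ hG0
  by_contra hlt
  push Not at hlt
  have hP1 : PP Q f ≤ S + 2 / μ := PP_le_cut hQ hf.sum hw hp hμ hinv hA hA'
  have hPs : PP Q f ≤ s + 2 / μ := by linarith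
  have hQp := Qp_psd hQ hG0
  have hGp := Gp_psd hQ hG0
  -- the two parts of the pairing
  have hone : (1 : ℝ) = ∑ a, y a * ∑ k, v a k ⬝ᵥ dev (g a) (z a) (σ a) k := by
    rw [← hy1]
    refine Finset.sum_congr rfl fun a _ => ?_
    rw [pair_dev (hv0 a) (hv1 a), mul_one]
  set b1 : ι → Fin 4 → ℝ := fun a k => (Q⁻¹ *ᵥ v a k) ⬝ᵥ Qp Q G *ᵥ dev (g a) (z a) (σ a) k with hb1
  set b2 : ι → Fin 4 → ℝ := fun a k =>
    S⁻¹ * ((v a k ⬝ᵥ G) * ((Q *ᵥ G) ⬝ᵥ dev (g a) (z a) (σ a) k)) with hb2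
  have hsplit : (1 : ℝ) = ∑ a, y a * ∑ k, b1 a k + ∑ a, y a * ∑ k, b2 a k := by
    rw [hone, ← Finset.sum_add_distrib]
    refine Finset.sum_congr rfl fun a _ => ?_
    rw [← mul_add, ← Finset.sum_add_distrib]
    congr 1
    refine Finset.sum_congr rfl fun k _ => ?_
    simp only [hb1, hb2, bf_Qp hQ]
    ring
  have hPPQp : ∀ a, y a * ∑ k, qf (Qp Q G) (dev (g a) (z a) (σ a) k) ≤ y a * ((1 + δ) * PP Q f) := by
    intro a
    rcases eq_or_lt_of_le (hy a) with h | h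
    · rw [← h, zero_mul, zero_mul]
    · refine mul_le_mul_of_nonneg_left ?_ (hy a)
      have h1 := chain_dev hQp (hg a).sum (z a) (σ a)
      have h2 : PP (Qp Q G) (g a) ≤ PP Q (g a) := by
        rw [Qp, PP_sub_mat]
        have h3 : 0 ≤ PP (Gp Q G) (g a) := by
          rw [PP]
          exact div_nonneg (Finset.sum_nonneg fun i _ => qf_nonneg hGp _) (by norm_num)
        linarith
      have h3 := hPP a h
      linarith
  have hPPGp : ∀ a, y a * ∑ k, qf (Gp Q G) (dev (g a) (z a) (σ a) k) ≤ y a * (δ * PP Q f + S) := by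
    intro a
    rcases eq_or_lt_of_le (hy a) with h | h
    · rw [← h, zero_mul, zero_mul]
    · refine mul_le_mul_of_nonneg_left ?_ (hy a)
      have h1 := chain_dev hGp (hg a).sum (z a) (σ a)
      have h2 := PP_Qp_ge hQ hf hw hp hA hA' (hg a)
      rw [← hG, ← hS, Qp, PP_sub_mat] at h2
      have h3 := hPP a h
      linarith
  have hq1 : ∑ a, y a * ∑ k, qf (Qp Q G) (dev (g a) (z a) (σ a) k) ≤ (1 + δ) * PP Q f := by
    refine (Finset.sum_le_sum fun a _ => hPPQp a).trans ?_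
    rw [← Finset.sum_mul, hy1, one_mul]
  have hq2 : ∑ a, y a * ∑ k, qf (Gp Q G) (dev (g a) (z a) (σ a) k) ≤ δ * PP Q f + S := by
    refine (Finset.sum_le_sum fun a _ => hPPGp a).trans ?_
    rw [← Finset.sum_mul, hy1, one_mul]
  have hPP0 : 0 ≤ PP Q f := by
    rw [PP]
    exact div_nonneg (Finset.sum_nonneg fun i _ => qf_nonneg hQ.posSemidef _) (by norm_num)
  -- first part
  have hS1 : (∑ a, y a * ∑ k, b1 a k) ^ 2 ≤ 2 * (1 + δ) * (s + 2 / μ) := by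
    have h1 := cs_family y hy b1 (fun a k => qf (Qp Q G) (Q⁻¹ *ᵥ v a k))
      (fun a k => qf (Qp Q G) (dev (g a) (z a) (σ a) k)) (fun a k => qf_nonneg hQp _)
      (fun a k => qf_nonneg hQp _) (fun a k => bf_sq_le hQp _ _)
    refine h1.trans ?_
    have h2 := trace_two hQ hG0 y v hT
    have h3 : 0 ≤ ∑ a, y a * ∑ k, qf (Qp Q G) (dev (g a) (z a) (σ a) k) :=
      Finset.sum_nonneg fun a _ => mul_nonneg (hy a) (Finset.sum_nonneg fun k _ => qf_nonneg hQp _)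
    calc _ ≤ 2 * ∑ a, y a * ∑ k, qf (Qp Q G) (dev (g a) (z a) (σ a) k) :=
          mul_le_mul_of_nonneg_right h2 h3
      _ ≤ 2 * ((1 + δ) * PP Q f) := by linarith
      _ ≤ 2 * (1 + δ) * (s + 2 / μ) := by
          rw [mul_assoc]
          gcongr
  -- second part
  have hS2 : (∑ a, y a * ∑ k, b2 a k) ^ 2 ≤ δ * (s + 2 / μ) + s := by
    have h1 := cs_family y hy b2 (fun a k => S⁻¹ * (v a k ⬝ᵥ G) ^ 2)
      (fun a k => qf (Gp Q G) (dev (g a) (z a) (σ a) k)) (fun a k => by positivity)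
      (fun a k => qf_nonneg hGp _) (fun a k => by
        rw [qf_Gp]
        simp only [hb2]
        exact le_of_eq (by ring))
    refine h1.trans ?_
    have h2 := trace_one_le hQ hG0 y v hT
    have h3 : 0 ≤ ∑ a, y a * ∑ k, qf (Gp Q G) (dev (g a) (z a) (σ a) k) :=
      Finset.sum_nonneg fun a _ => mul_nonneg (hy a) (Finset.sum_nonneg fun k _ => qf_nonneg hGp _)
    calc _ ≤ 1 * ∑ a, y a * ∑ k, qf (Gp Q G) (dev (g a) (z a) (σ a) k) :=
          mul_le_mul_of_nonneg_right h2 h3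
      _ ≤ δ * PP Q f + S := by linarith
      _ ≤ δ * (s + 2 / μ) + s := by
          have := mul_le_mul_of_nonneg_left hPs hδ
          linarith
  have h1 := (le_abs_self _).trans (Real.abs_le_sqrt hS1)
  have h2 := (le_abs_self _).trans (Real.abs_le_sqrt hS2)
  linarith

end Pool.Agent.Helper73.FX
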