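import Pool.Agent.Helper12.LW.Defs
import Pool.Agent.Helper84.FL.Dual

/-!
# MP_be0fb5, full answer: near minimal superbases

`PP Q g` is half of the total `Q`-length of the superbase `g`; `sp Q f l m = - f_l Q f_m`.
For `f` with `sp ≥ 0` and any superbase `g = X f`: `PP Q g = ∑_(l<m) sp_lm * n_lm`, `n_lm ≥ 1` integer
(`nn = 2 n`).  Hence a `g` with `PP Q g < (1 + δ) PP Q f` has `n_lm = 1` for all pairs with
`sp_lm ≥ δ PP Q f`.
-/

set_option autoImplicit false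

namespace Pool.Agent.Helper73.FX

open Matrix Pool.Agent.Helper12.LW
open Pool.Agent.Helper84.FL (Superbase)

/-- half of the total length of a superbase -/
noncomputable def PP (Q : Matrix (Fin 3) (Fin 3) ℝ) (g : Fin 4 → Fin 3 → ℤ) : ℝ :=
  (∑ i, qf Q (toR (g i))) / 2

/-- Selling parameter -/
noncomputable def sp (Q : Matrix (Fin 3) (Fin 3) ℝ) (f : Fin 4 → Fin 3 → ℤ) (l m : Fin 4) : ℝ :=
  -(toR (f l) ⬝ᵥ Q *ᵥ toR (f m))

/-- twice the number `n_lm` -/
def nn (X : Fin 4 → Fin 4 → ℤ) (l m : Fin 4) : ℤ := ∑ i, (X i l - X i m) ^ 2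

theorem toR_sum (X : Fin 4 → ℤ) (f : Fin 4 → Fin 3 → ℤ) :
    toR (∑ l, X l • f l) = ∑ l, (X l : ℝ) • toR (f l) := by
  funext i
  simp [toR, Finset.sum_apply]

theorem toR_sum_zero {f : Fin 4 → Fin 3 → ℤ} (hf : ∑ l, f l = 0) : ∑ l, toR (f l) = 0 := by
  have h := toR_sum (fun _ => 1) f
  simp only [one_smul, Int.cast_one, hf] at h
  rw [← h]
  funext i
  simp [toR]

theorem sp_comm {Q : Matrix (Fin 3) (Fin 3) ℝ} (hQ : Q.IsSymm) (f : Fin 4 → Fin 3 → ℤ) (l m : Fin 4) :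
    sp Q f l m = sp Q f m l := by
  rw [sp, sp, dotProduct_mulVec, ← mulVec_transpose, hQ.eq, dotProduct_comm]

/-- the bilinear Selling formula -/
theorem selling {Q : Matrix (Fin 3) (Fin 3) ℝ} (hQ : Q.IsSymm) {f : Fin 4 → Fin 3 → ℤ}
    (hf : ∑ l, f l = 0) (x y : Fin 4 → ℝ) :
    (∑ l, x l • toR (f l)) ⬝ᵥ Q *ᵥ (∑ l, y l • toR (f l)) =
      (∑ l, ∑ m, sp Q f l m * ((x l - x m) * (y l - y m))) / 2 := by
  have hrow : ∀ l, ∑ m, sp Q f l m = 0 := by
    intro l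
    have h1 : ∑ m, sp Q f l m = -(toR (f l) ⬝ᵥ Q *ᵥ (∑ m, toR (f m))) := by
      simp only [sp, mulVec_sum, dotProduct_sum, Finset.sum_neg_distrib]
    rw [h1, toR_sum_zero hf]
    simp
  have hcol : ∀ m, ∑ l, sp Q f l m = 0 := by
    intro m
    rw [← hrow m]
    exact Finset.sum_congr rfl fun l _ => sp_comm hQ f l m
  have hL : (∑ l, x l • toR (f l)) ⬝ᵥ Q *ᵥ (∑ l, y l • toR (f l)) =
      -∑ l, ∑ m, sp Q f l m * (x l * y m) := by
    rw [sum_dotProduct, ← Finset.sum_neg_distrib]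
    refine Finset.sum_congr rfl fun l _ => ?_
    rw [mulVec_sum, dotProduct_sum, ← Finset.sum_neg_distrib]
    refine Finset.sum_congr rfl fun m _ => ?_
    rw [mulVec_smul, smul_dotProduct, dotProduct_smul, sp]
    simp only [smul_eq_mul]
    ring
  have hR : (∑ l, ∑ m, sp Q f l m * ((x l - x m) * (y l - y m))) =
      ∑ l, (x l * y l) * (∑ m, sp Q f l m) + ∑ m, (x m * y m) * (∑ l, sp Q f l m)
        - ∑ l, ∑ m, sp Q f l m * (x l * y m) - ∑ l, ∑ m, sp Q f l m * (x m * y l) := by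
    simp only [Finset.mul_sum]
    rw [Finset.sum_comm (f := fun m l => x m * y m * sp Q f l m)]
    rw [← Finset.sum_add_distrib, ← Finset.sum_sub_distrib, ← Finset.sum_sub_distrib]
    refine Finset.sum_congr rfl fun l _ => ?_
    rw [← Finset.sum_add_distrib, ← Finset.sum_sub_distrib, ← Finset.sum_sub_distrib]
    refine Finset.sum_congr rfl fun m _ => ?_
    ring
  have hS : ∑ l, ∑ m, sp Q f l m * (x m * y l) = ∑ l, ∑ m, sp Q f l m * (x l * y m) := by
    rw [Finset.sum_comm]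
    refine Finset.sum_congr rfl fun l _ => Finset.sum_congr rfl fun m _ => ?_
    rw [sp_comm hQ f m l]
  rw [hL, hR, hS]
  simp only [hrow, hcol, mul_zero, Finset.sum_const_zero]
  ring

/-- the length of a lattice vector -/
theorem selling_qf {Q : Matrix (Fin 3) (Fin 3) ℝ} (hQ : Q.IsSymm) {f : Fin 4 → Fin 3 → ℤ}
    (hf : ∑ l, f l = 0) (X : Fin 4 → ℤ) :
    qf Q (toR (∑ l, X l • f l)) = (∑ l, ∑ m, sp Q f l m * ((X l : ℝ) - X m) ^ 2) / 2 := by
  rw [qf, toR_sum, selling hQ hf]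
  simp only [sq]

/-- `PP Q g = (1/4) ∑_(l,m) sp_lm nn_lm` -/
theorem PP_eq {Q : Matrix (Fin 3) (Fin 3) ℝ} (hQ : Q.IsSymm) {f g : Fin 4 → Fin 3 → ℤ}
    (hf : ∑ l, f l = 0) (X : Fin 4 → Fin 4 → ℤ) (hX : ∀ i, g i = ∑ l, X i l • f l) :
    PP Q g = (∑ l, ∑ m, sp Q f l m * (nn X l m : ℝ)) / 4 := by
  have h1 : ∀ i, qf Q (toR (g i)) = (∑ l, ∑ m, sp Q f l m * ((X i l : ℝ) - X i m) ^ 2) / 2 := by
    intro i
    rw [hX i, selling_qf hQ hf]
  rw [PP]
  simp only [h1]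
  rw [← Finset.sum_div, Finset.sum_comm]
  have h2 : ∀ l, ∑ i, ∑ m, sp Q f l m * ((X i l : ℝ) - X i m) ^ 2 =
      ∑ m, sp Q f l m * (nn X l m : ℝ) := by
    intro l
    rw [Finset.sum_comm]
    refine Finset.sum_congr rfl fun m _ => ?_
    rw [nn]
    push_cast
    rw [Finset.mul_sum]
  simp only [h2]
  ring

/-- the identity matrix of coordinates -/
theorem PP_self {Q : Matrix (Fin 3) (Fin 3) ℝ} (hQ : Q.IsSymm) {f : Fin 4 → Fin 3 → ℤ}
    (hf : ∑ l, f l = 0) :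
    PP Q f = sp Q f 0 1 + sp Q f 0 2 + sp Q f 0 3 + sp Q f 1 2 + sp Q f 1 3 + sp Q f 2 3 := by
  rw [PP_eq hQ hf (fun i l => if i = l then 1 else 0) (fun i => by simp)]
  have h := fun l m => sp_comm hQ f l m
  have hn : ∀ l m : Fin 4, nn (fun i l => if i = l then 1 else 0) l m = if l = m then 0 else 2 := by
    decide
  simp only [hn, Fin.sum_univ_four]
  have h10 := h 1 0
  have h20 := h 2 0
  have h30 := h 3 0
  have h21 := h 2 1
  have h31 := h 3 1
  have h32 := h 3 2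
  simp only [Fin.isValue, ↓reduceIte, Int.cast_zero, mul_zero, zero_ne_one, one_ne_zero, Int.cast_ofNat,
    Fin.reduceEq, zero_add, add_zero, h10, h20, h30, h21, h31, h32]
  ring

/-! ## coordinates of one superbase in another one -/

theorem coords {f : Fin 4 → Fin 3 → ℤ} (hf : Superbase f) (g : Fin 4 → Fin 3 → ℤ) :
    ∃ X : Fin 4 → Fin 4 → ℤ, ∀ i, g i = ∑ l, X i l • f l :=
  ⟨fun i => (hf.span (g i)).choose, fun i => (hf.span (g i)).choose_spec⟩

/-- a linear relation of a superbase is a multiple of the sum relation -/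
theorem rel {f : Fin 4 → Fin 3 → ℤ} (hf : Superbase f) (c : Fin 4 → ℤ) (hc : ∑ l, c l • f l = 0)
    (l m : Fin 4) : c l = c m := by
  obtain ⟨w, hw⟩ := Pool.Agent.Helper84.FL.dual_basis f hf
  have key : ∀ i : Fin 4, c i = c 3 := by
    intro i
    have h1 : ∑ k, w i k * (∑ l, c l • f l) k = 0 := by
      rw [hc]
      simp
    have h2 : ∑ k, w i k * (∑ l, c l • f l) k = ∑ l, c l * ∑ k, w i k * f l k := by
      simp only [Finset.sum_apply, Pi.smul_apply, smul_eq_mul, Finset.mul_sum]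
      rw [Finset.sum_comm]
      refine Finset.sum_congr rfl fun l _ => Finset.sum_congr rfl fun k _ => ?_
      ring
    rw [h2] at h1
    simp only [hw, mul_sub, Finset.sum_sub_distrib, mul_ite, mul_one, mul_zero, Finset.sum_ite_eq',
      Finset.mem_univ, if_true] at h1
    linarith
  rw [key l, key m]

theorem sum_diff {f g : Fin 4 → Fin 3 → ℤ} (hf : Superbase f) (hg : ∑ i, g i = 0)
    (X : Fin 4 → Fin 4 → ℤ) (hX : ∀ i, g i = ∑ l, X i l • f l) (l m : Fin 4) :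
    ∑ i, (X i l - X i m) = 0 := by
  have h1 : ∑ l, (∑ i, X i l) • f l = 0 := by
    rw [← hg]
    simp only [hX, Finset.sum_smul]
    rw [Finset.sum_comm]
  rw [Finset.sum_sub_distrib, rel hf _ h1 l m, sub_self]

theorem diff_ne {f g : Fin 4 → Fin 3 → ℤ} (hf : Superbase f) (hg : Superbase g)
    (X : Fin 4 → Fin 4 → ℤ) (hX : ∀ i, g i = ∑ l, X i l • f l) {l m : Fin 4} (hlm : l ≠ m) :
    ∃ i, X i l - X i m ≠ 0 := by
  by_contra hcon
  push Not at hcon
  obtain ⟨a, ha⟩ := hg.span (f l)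
  have h1 : ∑ k, (∑ i, a i * X i k - if k = l then 1 else 0) • f k = 0 := by
    simp only [sub_smul, Finset.sum_sub_distrib, ite_smul, one_smul, zero_smul, Finset.sum_ite_eq',
      Finset.mem_univ, if_true]
    rw [sub_eq_zero]
    conv_rhs => rw [ha]
    simp only [hX, Finset.sum_smul, Finset.smul_sum, mul_smul]
    rw [Finset.sum_comm]
  have h2 := rel hf _ h1 l m
  simp only [if_true, if_neg hlm.symm] at h2
  have h3 : ∑ i, a i * X i l = ∑ i, a i * X i m :=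
    Finset.sum_congr rfl fun i _ => by rw [sub_eq_zero.1 (hcon i)]
  rw [h3] at h2
  omega

theorem two_le_sum_sq (d : Fin 4 → ℤ) (h0 : ∑ i, d i = 0) (h1 : ∃ i, d i ≠ 0) : 2 ≤ ∑ i, d i ^ 2 := by
  have hpar : ∑ i, d i ^ 2 = ∑ i, d i + 2 * ∑ i, (d i * (d i - 1)) / 2 := by
    rw [Finset.mul_sum, ← Finset.sum_add_distrib]
    refine Finset.sum_congr rfl fun i _ => ?_
    have h2 : 2 ∣ d i * (d i - 1) := by
      have := Int.even_mul_pred_self (d i)
      exact this.two_dvd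
    rw [Int.mul_ediv_cancel' h2]
    ring
  obtain ⟨i, hi⟩ := h1
  have h3 : 0 < ∑ i, d i ^ 2 := Finset.sum_pos' (fun _ _ => sq_nonneg _) ⟨i, Finset.mem_univ _, by positivity⟩
  rw [h0] at hpar
  omega

/-- `n_lm ≥ 1` -/
theorem two_le_nn {f g : Fin 4 → Fin 3 → ℤ} (hf : Superbase f) (hg : Superbase g)
    (X : Fin 4 → Fin 4 → ℤ) (hX : ∀ i, g i = ∑ l, X i l • f l) {l m : Fin 4} (hlm : l ≠ m) :
    2 ≤ nn X l m :=
  two_le_sum_sq _ (sum_diff hf hg.sum X hX l m) (diff_ne hf hg X hX hlm)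

theorem even_nn {f g : Fin 4 → Fin 3 → ℤ} (hf : Superbase f) (hg : Superbase g)
    (X : Fin 4 → Fin 4 → ℤ) (hX : ∀ i, g i = ∑ l, X i l • f l) (l m : Fin 4) : Even (nn X l m) := by
  have h0 := sum_diff hf hg.sum X hX l m
  have h1 : nn X l m = ∑ i, (X i l - X i m) + ∑ i, (X i l - X i m) * ((X i l - X i m) - 1) := by
    rw [nn, ← Finset.sum_add_distrib]
    exact Finset.sum_congr rfl fun i _ => by ring
  rw [h1, h0, zero_add]
  exact Finset.even_sum _ fun i _ => Int.even_mul_pred_self _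

/-- **excess formula**: `PP Q g - PP Q f = ∑_(l<m) sp_lm (n_lm - 1)` (here over all ordered pairs). -/
theorem PP_sub {Q : Matrix (Fin 3) (Fin 3) ℝ} (hQ : Q.IsSymm) {f g : Fin 4 → Fin 3 → ℤ}
    (hf : ∑ l, f l = 0) (X : Fin 4 → Fin 4 → ℤ) (hX : ∀ i, g i = ∑ l, X i l • f l) :
    PP Q g - PP Q f =
      (∑ l, ∑ m, if l = m then 0 else sp Q f l m * ((nn X l m : ℝ) - 2)) / 4 := by
  rw [PP_eq hQ hf X hX, PP_eq hQ hf (fun i l => if i = l then 1 else 0) (fun i => by simp)]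
  have hn : ∀ l m : Fin 4, nn (fun i l => if i = l then 1 else 0) l m = if l = m then 0 else 2 := by
    decide
  rw [← sub_div, ← Finset.sum_sub_distrib]
  congr 1
  refine Finset.sum_congr rfl fun l _ => ?_
  rw [← Finset.sum_sub_distrib]
  refine Finset.sum_congr rfl fun m _ => ?_
  rw [hn]
  split_ifs with h
  · subst h
    simp [nn]
  · push_cast
    ring

/-- **near minimal superbases**: if `sp ≥ 0` and `PP Q g < PP Q f + e`, then `n_lm = 1` for every pair with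
`e ≤ sp_lm`. -/
theorem nn_eq_two {Q : Matrix (Fin 3) (Fin 3) ℝ} (hQ : Q.IsSymm) {f g : Fin 4 → Fin 3 → ℤ}
    (hf : Superbase f) (hg : Superbase g) (X : Fin 4 → Fin 4 → ℤ)
    (hX : ∀ i, g i = ∑ l, X i l • f l) (hp : ∀ l m, l ≠ m → 0 ≤ sp Q f l m) {e : ℝ}
    (hlt : PP Q g < PP Q f + e) {l m : Fin 4} (hlm : l ≠ m) (he : e ≤ sp Q f l m) :
    nn X l m = 2 := by
  by_contra hne
  have h2 := two_le_nn hf hg X hX hlm
  have h3 := even_nn hf hg X hX l m
  have h4 : 4 ≤ nn X l m := by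
    obtain ⟨c, hc⟩ := h3
    omega
  have h4' : (4 : ℝ) ≤ nn X l m := by exact_mod_cast h4
  have h5 := PP_sub hQ hf.sum X hX
  have hterm : ∀ a b, 0 ≤ (if a = b then 0 else sp Q f a b * ((nn X a b : ℝ) - 2)) := by
    intro a b
    split_ifs with h
    · exact le_refl _
    · have h6 : (2 : ℝ) ≤ nn X a b := by exact_mod_cast two_le_nn hf hg X hX h
      exact mul_nonneg (hp a b h) (by linarith)
  have hsym : nn X m l = nn X l m := by
    rw [nn, nn]
    exact Finset.sum_congr rfl fun i _ => by ring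
  have h7 : sp Q f l m * 2 + sp Q f m l * 2 ≤
      ∑ a, ∑ b, if a = b then 0 else sp Q f a b * ((nn X a b : ℝ) - 2) := by
    have hl : sp Q f l m * 2 ≤ ∑ b, if l = b then 0 else sp Q f l b * ((nn X l b : ℝ) - 2) := by
      refine le_trans ?_ (Finset.single_le_sum (fun b _ => hterm l b) (Finset.mem_univ m))
      rw [if_neg hlm]
      nlinarith [hp l m hlm]
    have hm : sp Q f m l * 2 ≤ ∑ b, if m = b then 0 else sp Q f m b * ((nn X m b : ℝ) - 2) := by
      refine le_trans ?_ (Finset.single_le_sum (fun b _ => hterm m b) (Finset.mem_univ l))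
      rw [if_neg hlm.symm, hsym]
      nlinarith [hp m l hlm.symm]
    have hsub : ∑ a ∈ ({l, m} : Finset (Fin 4)),
        ∑ b, (if a = b then 0 else sp Q f a b * ((nn X a b : ℝ) - 2)) ≤
        ∑ a, ∑ b, if a = b then 0 else sp Q f a b * ((nn X a b : ℝ) - 2) :=
      Finset.sum_le_sum_of_subset_of_nonneg (Finset.subset_univ _)
        fun a _ _ => Finset.sum_nonneg fun b _ => hterm a b
    rw [Finset.sum_pair hlm] at hsub
    linarith
  rw [sp_comm hQ f m l] at h7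
  linarith

/-! ## Selling flips: a minimal superbase is obtuse -/

/-- the flip in the pair `0, 1` after a permutation of the indices -/
def flip (f : Fin 4 → Fin 3 → ℤ) : Fin 4 → Fin 3 → ℤ := ![-f 0, f 1, f 0 + f 2, f 0 + f 3]

theorem superbase_flip {f : Fin 4 → Fin 3 → ℤ} (hf : Superbase f) : Superbase (flip f) := by
  have hs := hf.sum
  rw [Fin.sum_univ_four] at hs
  refine ⟨?_, fun z => ?_⟩
  · rw [Fin.sum_univ_four]
    simp only [flip, Matrix.cons_val_zero, Matrix.cons_val_one, Matrix.cons_val]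
    rw [← hs]
    abel
  · obtain ⟨a, ha⟩ := hf.span z
    refine ⟨![a 2 + a 3 - a 0, a 1, a 2, a 3], ?_⟩
    rw [ha, Fin.sum_univ_four, Fin.sum_univ_four]
    simp only [flip, Matrix.cons_val_zero, Matrix.cons_val_one, Matrix.cons_val, smul_add, smul_neg,
      sub_smul, add_smul]
    abel

theorem superbase_perm {f : Fin 4 → Fin 3 → ℤ} (hf : Superbase f) (τ : Equiv.Perm (Fin 4)) :
    Superbase (fun i => f (τ i)) := by
  refine ⟨?_, fun z => ?_⟩
  · rw [← hf.sum]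
    exact Equiv.sum_comp τ f
  · obtain ⟨a, ha⟩ := hf.span z
    refine ⟨fun i => a (τ i), ?_⟩
    rw [ha]
    exact (Equiv.sum_comp τ fun l => a l • f l).symm

theorem PP_perm (Q : Matrix (Fin 3) (Fin 3) ℝ) (f : Fin 4 → Fin 3 → ℤ) (τ : Equiv.Perm (Fin 4)) :
    PP Q (fun i => f (τ i)) = PP Q f := by
  rw [PP, PP]
  congr 1
  exact Equiv.sum_comp τ fun l => qf Q (toR (f l))

/-- `PP (flip f) = PP f + sp 0 1` -/
theorem PP_flip {Q : Matrix (Fin 3) (Fin 3) ℝ} (hQ : Q.IsSymm) {f : Fin 4 → Fin 3 → ℤ}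
    (hf : ∑ l, f l = 0) : PP Q (flip f) = PP Q f + sp Q f 0 1 := by
  have hX : ∀ i, flip f i = ∑ l, (![![-1, 0, 0, 0], ![0, 1, 0, 0], ![1, 0, 1, 0], ![1, 0, 0, 1]] :
      Fin 4 → Fin 4 → ℤ) i l • f l := by
    intro i
    fin_cases i <;> simp [flip, Fin.sum_univ_four]
  have h := PP_sub hQ hf _ hX
  have hn : ∀ l m : Fin 4, nn (![![-1, 0, 0, 0], ![0, 1, 0, 0], ![1, 0, 1, 0], ![1, 0, 0, 1]] :
      Fin 4 → Fin 4 → ℤ) l m = if l = m then 0 else if (l = 0 ∧ m = 1) ∨ (l = 1 ∧ m = 0) then 4 else 2 := by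
    decide
  have hc := sp_comm hQ f 1 0
  simp only [hn, Fin.sum_univ_four] at h
  simp at h
  rw [hc] at h
  linarith

/-- a superbase of minimal total length is obtuse -/
theorem sp_nonneg_of_min {Q : Matrix (Fin 3) (Fin 3) ℝ} (hQ : Q.IsSymm) {f : Fin 4 → Fin 3 → ℤ}
    (hf : Superbase f) (hmin : ∀ g, Superbase g → PP Q f ≤ PP Q g) {l m : Fin 4} (hlm : l ≠ m) :
    0 ≤ sp Q f l m := by
  obtain ⟨τ, h0, h1⟩ : ∃ τ : Equiv.Perm (Fin 4), τ 0 = l ∧ τ 1 = m := by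
    revert l m
    decide
  have h2 := hmin _ (superbase_flip (superbase_perm hf τ))
  rw [PP_flip hQ (superbase_perm hf τ).sum, PP_perm] at h2
  have h3 : sp Q (fun i => f (τ i)) 0 1 = sp Q f l m := by rw [sp, sp, h0, h1]
  rw [h3] at h2
  linarith

end Pool.Agent.Helper73.FX
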