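import Mathlib
import Pool.Agent.Helper24.UB.Defs

/-! Leaf (A7) of the asymmetry bound: one chain, one root. -/

set_option autoImplicit false

namespace Pool.Agent.Helper73.FX

open Pool.Agent.Helper24.UB

/-- the shape of a root on a chain -/
theorem eta_shape (a b : Fin 4) (hab : a ≠ b) (σ : Equiv.Perm (Fin 3)) :
    (tt a b σ = 0 ∧ ∃ kc k0 : Fin 4,
      (∀ k, eta a b σ k = eta a b σ kc + if k = k0 then 1 else 0) ∨
      (∀ k, eta a b σ k = eta a b σ kc - if k = k0 then 1 else 0)) ∨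
    (tt a b σ = 1 ∧ ∃ kc k0 k1 : Fin 4, k0 ≠ k1 ∧
      ∀ k, eta a b σ k = eta a b σ kc + if k = k0 ∨ k = k1 then 1 else 0) := by
  revert a b σ
  decide +kernel

/-- weighted variance of an indicator -/
theorem var_ind (κ x : Fin 4 → ℝ) (hx : ∀ k, x k = 0 ∨ x k = 1) (hS : 0 < ∑ k, κ k) (c s : ℝ) (hs : s ^ 2 = 1) :
    ∑ k, κ k * ((c + s * x k) - (c + s * ((∑ l, κ l * x l) / ∑ l, κ l))) ^ 2 =
      (∑ l, κ l * x l) - (∑ l, κ l * x l) ^ 2 / ∑ l, κ l := by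
  set S := ∑ l, κ l with hSd
  set q := ∑ l, κ l * x l with hqd
  have h1 : ∀ k, κ k * ((c + s * x k) - (c + s * (q / S))) ^ 2 =
      κ k * x k - 2 * (q / S) * (κ k * x k) + (q / S) ^ 2 * κ k := by
    intro k
    have h2 : ((c + s * x k) - (c + s * (q / S))) ^ 2 = s ^ 2 * (x k - q / S) ^ 2 := by ring
    rw [h2, hs]
    rcases hx k with h | h <;> rw [h] <;> ring
  rw [Finset.sum_congr rfl fun k _ => h1 k, Finset.sum_add_distrib, Finset.sum_sub_distrib,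
    ← Finset.mul_sum, ← Finset.mul_sum, ← hSd, ← hqd]
  field_simp
  ring

/-- a balanced vector against an indicator -/
theorem bal_ind (ρ x : Fin 4 → ℝ) (hx : ∀ k, x k = 0 ∨ x k = 1) (h0 : ∑ k, ρ k = 0) (h2 : ∑ k, |ρ k| ≤ 2) :
    ∑ k, ρ k * x k ≤ 1 := by
  have h3 : 2 * ∑ k, ρ k * x k = ∑ k, ρ k * (2 * x k - 1) := by
    have : ∑ k, ρ k * (2 * x k - 1) = 2 * (∑ k, ρ k * x k) - ∑ k, ρ k := by
      rw [Finset.mul_sum, ← Finset.sum_sub_distrib]
      exact Finset.sum_congr rfl fun k _ => by ring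
    rw [this, h0]; ring
  have h4 : ∑ k, ρ k * (2 * x k - 1) ≤ ∑ k, |ρ k| := by
    refine Finset.sum_le_sum fun k _ => ?_
    rcases hx k with h | h <;> rw [h]
    · have := neg_abs_le (ρ k); linarith
    · have := le_abs_self (ρ k); linarith
  linarith

/-- (A7) one chain, one root: the weighted variance of `eta` and its product with `ρ`. -/
theorem eta_bound (a b : Fin 4) (hab : a ≠ b) (σ : Equiv.Perm (Fin 3)) (κ : Fin 4 → ℝ) (Y T : ℝ)
    (hκ0 : ∀ k, 0 ≤ κ k) (hκ1 : ∀ k, κ k ≤ 1) (hκs : ∑ k, κ k ≤ Y) (hκp : 0 < ∑ k, κ k) (hY : 2 ≤ Y)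
    (hT : 0 ≤ T) :
    ∃ t : ℝ, ∀ ρ : Fin 4 → ℝ, ∑ k, ρ k = 0 → (∀ k, |ρ k| ≤ κ k) → ∑ k, |ρ k| ≤ 2 →
      T * ∑ k, κ k * ((eta a b σ k : ℝ) - t) ^ 2 + 2 * ∑ k, ρ k * (eta a b σ k : ℝ) ≤
        T * (1 - 1 / Y) + 2 + (tt a b σ : ℝ) * (T * (Y - 2) ^ 2 / (4 * Y)) := by
  have hYp : 0 < Y := by linarith
  -- one index differs
  have case0 : ∀ (kc k0 : Fin 4) (s : ℝ), s ^ 2 = 1 → tt a b σ = 0 →
      (∀ k, (eta a b σ k : ℝ) = (eta a b σ kc : ℝ) + s * (if k = k0 then 1 else 0)) →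
      ∃ t : ℝ, ∀ ρ : Fin 4 → ℝ, ∑ k, ρ k = 0 → (∀ k, |ρ k| ≤ κ k) → ∑ k, |ρ k| ≤ 2 →
      T * ∑ k, κ k * ((eta a b σ k : ℝ) - t) ^ 2 + 2 * ∑ k, ρ k * (eta a b σ k : ℝ) ≤
        T * (1 - 1 / Y) + 2 + (tt a b σ : ℝ) * (T * (Y - 2) ^ 2 / (4 * Y)) := by
    intro kc k0 s hs htt he
    set x : Fin 4 → ℝ := fun k => if k = k0 then 1 else 0 with hxd
    have hx : ∀ k, x k = 0 ∨ x k = 1 := fun k => by
      by_cases h : k = k0
      · right; simp [hxd, h]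
      · left; simp [hxd, h]
    have hq : ∑ l, κ l * x l = κ k0 := by simp [hxd]
    have hv := var_ind κ x hx hκp (eta a b σ kc) s hs
    refine ⟨(eta a b σ kc : ℝ) + s * ((∑ l, κ l * x l) / ∑ l, κ l), fun ρ h0 hκ h2 => ?_⟩
    have h5 : ∑ k, κ k * ((eta a b σ k : ℝ) -
        ((eta a b σ kc : ℝ) + s * ((∑ l, κ l * x l) / ∑ l, κ l))) ^ 2 =
        κ k0 - κ k0 ^ 2 / ∑ l, κ l := by
      rw [← hq, ← hv]
      exact Finset.sum_congr rfl fun k _ => by rw [he k]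
    have h6 : ∑ k, ρ k * (eta a b σ k : ℝ) = s * ρ k0 := by
      have : ∀ k, ρ k * (eta a b σ k : ℝ) = (eta a b σ kc : ℝ) * ρ k + s * (ρ k * x k) := fun k => by
        rw [he k]; ring
      rw [Finset.sum_congr rfl fun k _ => this k, Finset.sum_add_distrib, ← Finset.mul_sum, ← Finset.mul_sum, h0]
      simp [hxd]
    rw [h5, h6, htt]
    have h7 : s * ρ k0 ≤ κ k0 := by
      have h8 : |s| = 1 := by
        have : |s| ^ 2 = 1 := by rw [sq_abs]; exact hs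
        nlinarith [abs_nonneg s]
      calc s * ρ k0 ≤ |s * ρ k0| := le_abs_self _
        _ = |ρ k0| := by rw [abs_mul, h8, one_mul]
        _ ≤ κ k0 := hκ k0
    have h9 : κ k0 ^ 2 / Y ≤ κ k0 ^ 2 / ∑ l, κ l :=
      div_le_div_of_nonneg_left (sq_nonneg _) hκp hκs
    have h10 : κ k0 - κ k0 ^ 2 / Y ≤ 1 - 1 / Y := by
      have h11 : 1 - 1 / Y - (κ k0 - κ k0 ^ 2 / Y) = (1 - κ k0) * (Y - 1 - κ k0) / Y := by
        field_simp; ring
      have h12 : 0 ≤ (1 - κ k0) * (Y - 1 - κ k0) / Y :=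
        div_nonneg (mul_nonneg (by linarith [hκ1 k0]) (by linarith [hκ1 k0])) hYp.le
      linarith
    have h13 : T * (κ k0 - κ k0 ^ 2 / ∑ l, κ l) ≤ T * (1 - 1 / Y) :=
      mul_le_mul_of_nonneg_left (by linarith) hT
    have h14 := hκ1 k0
    push_cast
    linarith
  rcases eta_shape a b hab σ with ⟨htt, kc, k0, h | h⟩ | ⟨htt, kc, k0, k1, hne, h⟩
  · refine case0 kc k0 1 (by norm_num) htt fun k => ?_
    rw [h k]; push_cast; ring
  · refine case0 kc k0 (-1) (by norm_num) htt fun k => ?_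
    rw [h k]; push_cast; ring
  · set x : Fin 4 → ℝ := fun k => if k = k0 ∨ k = k1 then 1 else 0 with hxd
    have hx : ∀ k, x k = 0 ∨ x k = 1 := fun k => by
      by_cases h : k = k0 ∨ k = k1
      · right; simp [hxd, h]
      · left; simp [hxd, h]
    have he : ∀ k, (eta a b σ k : ℝ) = (eta a b σ kc : ℝ) + 1 * x k := fun k => by
      rw [h k, hxd]; push_cast; ring
    have hv := var_ind κ x hx hκp (eta a b σ kc) 1 (by norm_num)
    refine ⟨(eta a b σ kc : ℝ) + 1 * ((∑ l, κ l * x l) / ∑ l, κ l), fun ρ h0 hκ h2 => ?_⟩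
    have h5 : ∑ k, κ k * ((eta a b σ k : ℝ) -
        ((eta a b σ kc : ℝ) + 1 * ((∑ l, κ l * x l) / ∑ l, κ l))) ^ 2 =
        (∑ l, κ l * x l) - (∑ l, κ l * x l) ^ 2 / ∑ l, κ l := by
      rw [← hv]
      exact Finset.sum_congr rfl fun k _ => by rw [he k]
    have h6 : ∑ k, ρ k * (eta a b σ k : ℝ) = ∑ k, ρ k * x k := by
      have : ∀ k, ρ k * (eta a b σ k : ℝ) = (eta a b σ kc : ℝ) * ρ k + ρ k * x k := fun k => by
        rw [he k]; ring
      rw [Finset.sum_congr rfl fun k _ => this k, Finset.sum_add_distrib, ← Finset.mul_sum, h0]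
      ring
    rw [h5, h6, htt]
    have h7 := bal_ind ρ x hx h0 h2
    set q := ∑ l, κ l * x l with hqd
    set S := ∑ l, κ l with hSd
    have h8 : q - q ^ 2 / S ≤ Y / 4 := by
      have h9 : S / 4 - (q - q ^ 2 / S) = (S - 2 * q) ^ 2 / (4 * S) := by
        field_simp; ring
      have h10 : 0 ≤ (S - 2 * q) ^ 2 / (4 * S) := by positivity
      linarith
    have h11 : T * (q - q ^ 2 / S) ≤ T * (Y / 4) := mul_le_mul_of_nonneg_left h8 hT
    have h12 : T * (1 - 1 / Y) + 2 + (((1 : ℤ) : ℝ)) * (T * (Y - 2) ^ 2 / (4 * Y)) = T * (Y / 4) + 2 := by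
      push_cast
      field_simp
      ring
    rw [h12]
    linarith

end Pool.Agent.Helper73.FX
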